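import Mathlib

/-!
Finite products of a discrete and an indiscrete space: every homeomorphism between subspaces
extends, and a finite homogeneous `R0` space is such a product.
-/

set_option autoImplicit false

open Set Topology

namespace Pool.Agent.Lib.MP_52f683_gt.Cls

section

variable {D I : Type*} [TopologicalSpace D] [TopologicalSpace I]

theorem isInducing_fst [IndiscreteTopology I] : IsInducing (Prod.fst : D × I → D) := by
  refine isInducing_iff_nhds.2 fun x => ?_
  rw [nhds_prod_eq, IndiscreteTopology.nhds_eq x.2, Filter.prod_top]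

theorem inseparable_iff [DiscreteTopology D] [IndiscreteTopology I] {x y : D × I} :
    Inseparable x y ↔ x.1 = y.1 := by
  rw [← isInducing_fst.inseparable_iff, inseparable_iff_eq]

/-- a permutation of the classes together with permutations inside the classes -/
def shear [DiscreteTopology D] [IndiscreteTopology I] (σ : Equiv.Perm D) (τ : D → Equiv.Perm I) :
    D × I ≃ₜ D × I where
  toEquiv := Equiv.prodShear σ τ
  continuous_toFun := isInducing_fst.continuous_iff.2
    ((continuous_of_discreteTopology (f := σ)).comp continuous_fst)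
  continuous_invFun := isInducing_fst.continuous_iff.2
    ((continuous_of_discreteTopology (f := σ.symm)).comp continuous_fst)

theorem exists_extension [DiscreteTopology D] [IndiscreteTopology I] [Finite D] [Finite I]
    {A B : Set (D × I)} (e : A ≃ₜ B) : ∃ h : D × I ≃ₜ D × I, ∀ a : A, h a = e a := by
  have key : ∀ a b : A, (e a : D × I).1 = (e b : D × I).1 ↔ (a : D × I).1 = (b : D × I).1 := by
    intro a b
    rw [← inseparable_iff, ← inseparable_iff, IsInducing.subtypeVal.inseparable_iff,
      IsInducing.subtypeVal.inseparable_iff, e.isInducing.inseparable_iff]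
  obtain ⟨σ, hσ⟩ := Equiv.Perm.exists_extending_pair
    (fun d : {d : D // ∃ i, (d, i) ∈ A} => (d : D))
    (fun d => (e ⟨(d.1, d.2.choose), d.2.choose_spec⟩ : D × I).1) Subtype.val_injective
    fun d d' h => Subtype.ext ((key _ _).1 h)
  have hσ' : ∀ a : A, σ (a : D × I).1 = (e a : D × I).1 := fun a =>
    (hσ ⟨(a : D × I).1, (a : D × I).2, a.2⟩).trans ((key _ _).2 rfl)
  have hτ : ∀ d : D, ∃ τ : Equiv.Perm I, ∀ (i : I) (hi : (d, i) ∈ A),
      τ i = (e ⟨(d, i), hi⟩ : D × I).2 := by
    intro d
    obtain ⟨τ, hτ⟩ := Equiv.Perm.exists_extending_pair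
      (fun i : {i : I // (d, i) ∈ A} => (i : I))
      (fun i => (e ⟨(d, i.1), i.2⟩ : D × I).2) Subtype.val_injective fun i i' h => by
        have h1 : e ⟨(d, i.1), i.2⟩ = e ⟨(d, i'.1), i'.2⟩ :=
          Subtype.ext (Prod.ext ((key _ _).2 rfl) h)
        exact Subtype.ext (congrArg (fun a : A => (a : D × I).2) (e.injective h1))
    exact ⟨τ, fun i hi => hτ ⟨i, hi⟩⟩
  choose τ hτ using hτ
  exact ⟨shear σ τ, fun a => Prod.ext (hσ' a) (hτ (a : D × I).1 (a : D × I).2 a.2)⟩

end

variable {S : Type*} [TopologicalSpace S]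

/-- homeomorphisms between subspaces of a space homeomorphic to such a product extend -/
theorem exists_extension_of_homeomorph {D I : Type*} [TopologicalSpace D] [TopologicalSpace I]
    [DiscreteTopology D] [IndiscreteTopology I] [Finite D] [Finite I] (g : S ≃ₜ D × I)
    {A B : Set S} (e : A ≃ₜ B) : ∃ h : S ≃ₜ S, ∀ a : A, h a = e a := by
  obtain ⟨h, hh⟩ := exists_extension (((g.image A).symm.trans e).trans (g.image B))
  refine ⟨(g.trans h).trans g.symm, fun a => ?_⟩
  have h1 := hh (g.image A a)
  have h2 : h (g a) = g (e a) := by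
    simpa using h1
  simp [h2]

theorem image_eq_of_extends {A B : Set S} (e : A ≃ₜ B) {h : S → S} (hh : ∀ a : A, h a = e a) :
    h '' A = B := by
  ext y
  constructor
  · rintro ⟨x, hx, rfl⟩
    rw [hh ⟨x, hx⟩]
    exact (e ⟨x, hx⟩).2
  · intro hy
    exact ⟨e.symm ⟨y, hy⟩, (e.symm ⟨y, hy⟩).2, by rw [hh]; simp⟩

/-- a finite homogeneous `R0` space is a product of a discrete and an indiscrete space -/
theorem exists_prod [Finite S] [R0Space S] (hom : ∀ x y : S, ∃ g : S ≃ₜ S, g x = y) :
    ∃ (D I : Type) (_ : TopologicalSpace D) (_ : TopologicalSpace I), Finite D ∧ Finite I ∧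
      DiscreteTopology D ∧ IndiscreteTopology I ∧ Nonempty (S ≃ₜ D × I) := by
  have hQ : Finite (SeparationQuotient S) := Finite.of_surjective _ SeparationQuotient.surjective_mk
  have hT : T1Space (SeparationQuotient S) := SeparationQuotient.t1Space_iff.2 inferInstance
  obtain ⟨m, ⟨q⟩⟩ := Finite.exists_equiv_fin (SeparationQuotient S)
  have hn : ∃ n, ∀ d : SeparationQuotient S,
      Nonempty ({x : S // SeparationQuotient.mk x = d} ≃ Fin n) := by
    rcases isEmpty_or_nonempty S with hS | ⟨⟨x₀⟩⟩
    · refine ⟨0, fun d => ?_⟩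
      obtain ⟨x, -⟩ := SeparationQuotient.surjective_mk d
      exact isEmptyElim x
    · obtain ⟨n, ⟨r⟩⟩ :=
        Finite.exists_equiv_fin {x : S // SeparationQuotient.mk x = SeparationQuotient.mk x₀}
      refine ⟨n, fun d => ?_⟩
      obtain ⟨x, rfl⟩ := SeparationQuotient.surjective_mk d
      obtain ⟨g, rfl⟩ := hom x x₀
      refine ⟨(g.toEquiv.subtypeEquiv fun y => ?_).trans r⟩
      rw [SeparationQuotient.mk_eq_mk, SeparationQuotient.mk_eq_mk]
      exact g.isInducing.inseparable_iff.symm
  obtain ⟨n, hn⟩ := hn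
  let _ : TopologicalSpace (Fin m) := ⊥
  let _ : TopologicalSpace (Fin n) := ⊤
  have hD : DiscreteTopology (Fin m) := ⟨rfl⟩
  have hI : IndiscreteTopology (Fin n) := ⟨rfl⟩
  let e : S ≃ Fin m × Fin n :=
    ((Equiv.sigmaFiberEquiv (SeparationQuotient.mk : S → SeparationQuotient S)).symm.trans
      (Equiv.sigmaEquivProdOfEquiv fun d => (hn d).some)).trans (q.prodCongr (Equiv.refl _))
  have he : IsInducing e := by
    refine (isInducing_fst.of_comp_iff).1 ?_
    have h1 : (Prod.fst ∘ e) = q ∘ SeparationQuotient.mk := rfl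
    rw [h1]
    exact (q.toHomeomorphOfDiscrete.isInducing).comp SeparationQuotient.isInducing_mk
  exact ⟨Fin m, Fin n, ⊥, ⊤, inferInstance, inferInstance, hD, hI,
    ⟨e.toHomeomorphOfIsInducing he⟩⟩

end Pool.Agent.Lib.MP_52f683_gt.Cls
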